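import Mathlib
import Pool.Agent.Results.MP_7a870e_al.FiniteSignatureK

set_option autoImplicit false

open FirstOrder FirstOrder.Language FirstOrder.Language.Structure Filter

universe u

noncomputable section

/-!
# Quasivariety lattices as complete sublattices

For every quasivariety `M` of finite signature the complete lattice `Lq M` is a complete sublattice
of the lattice of quasivarieties of algebras with four unary and two binary operations.
-/

namespace Pool.Agent.Results.MP_7a870e_al.CompleteSublattices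

open Pool.Agent.Results.MP_7a870e_al.FiniteSignatureK

variable {L : FirstOrder.Language.{0, 0}}

section coding

variable {k : ℕ} [NeZero k] {gf : ZMod k → Option (Σ n, L.Functions n)}
  {gr : ZMod k → Option (Σ n, L.Relations n)}

/-- The coded ultraproduct embeds in the ultraproduct of the coded systems. -/
theorem Phi_ultra_emb {ι : Type u} (U : Ultrafilter ι) (A : ι → Sys.{u} L) :
    Nonempty (Phi gf gr (Sys.ultra U A) ↪[tau] Sys.ultra U (fun i => Phi gf gr (A i))) := by
  let E : Sys.ultra U (fun i => Phi gf gr (A i)) → Phi gf gr (Sys.ultra U A) := fun c =>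
    Quotient.lift (fun z => E0 U A z) (fun z z' h => (E0_eq U A z z').2 h)
      (show Quotient ((U : Filter ι).productSetoid fun i => (Phi gf gr (A i) : Type u)) from c)
  have hE : ∀ z, E (um z) = E0 U A z := fun z => rfl
  have ho1 : ∀ (f : TFun 1) (z : ∀ i, Phi gf gr (A i)),
      op1 f (um z : Sys.ultra U fun i => Phi gf gr (A i)) = um fun i => op1 f (z i) := by
    intro f z
    unfold op1
    have := ultra_funMap (L := tau) (U := U) (fun i => Phi gf gr (A i)) f ![z]
    have e : (fun j => (um ((![z] : Fin 1 → ∀ i, Phi gf gr (A i)) j) :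
        Sys.ultra U fun i => Phi gf gr (A i))) = ![um z] := by
      funext j; fin_cases j; rfl
    rw [e] at this
    rw [this]
    congr 1
    funext i
    congr 1
    funext j; fin_cases j; rfl
  have ho2 : ∀ (f : TFun 2) (z w : ∀ i, Phi gf gr (A i)),
      op2 f (um z : Sys.ultra U fun i => Phi gf gr (A i)) (um w) = um fun i => op2 f (z i) (w i) := by
    intro f z w
    unfold op2
    have := ultra_funMap (L := tau) (U := U) (fun i => Phi gf gr (A i)) f ![z, w]
    have e : (fun j => (um ((![z, w] : Fin 2 → ∀ i, Phi gf gr (A i)) j) :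
        Sys.ultra U fun i => Phi gf gr (A i))) = ![um z, um w] := by
      funext j; fin_cases j <;> rfl
    rw [e] at this
    rw [this]
    congr 1
    funext i
    congr 1
    funext j; fin_cases j <;> rfl
  have hhom : ∃ h : Sys.ultra U (fun i => Phi gf gr (A i)) →[tau] Phi gf gr (Sys.ultra U A),
      ∀ x, h x = E x := by
    apply mkHom
    · intro f c
      obtain ⟨z, rfl⟩ := um_surj c
      rw [ho1, hE, hE]
      cases f
      · rfl
      · apply phi_ext
        · funext l
          rw [F1]
          change (um fun i => FA gf (A i) (fst' (z i)) l : Sys.ultra U A) =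
            FA gf (Sys.ultra U A) (fun l => um fun i => fst' (z i) l) l
          unfold FA
          cases gf l with
          | none => rfl
          | some s => exact (ultra_funMap A s.2 _).symm
        · rfl
      · apply phi_ext
        · rfl
        · funext l
          refine Prod.ext rfl (Prod.ext ?_ ?_)
          · exact lim_eq U _ _ (Filter.Eventually.of_forall fun i => rfl)
          · exact propext ⟨fun _ => trivial, fun _ => Filter.Eventually.of_forall fun i => trivial⟩
      · apply phi_ext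
        · rfl
        · funext l
          refine Prod.ext rfl (Prod.ext ?_ ?_)
          · exact lim_eq U _ _ (Filter.Eventually.of_forall fun i => rfl)
          · change (∀ᶠ i in U, RA gr (A i) (fst' (z i)) l) =
              RA gr (Sys.ultra U A) (fun l => um fun i => fst' (z i) l) l
            apply propext
            unfold RA
            cases gr l with
            | none => exact ⟨fun _ => trivial, fun _ => Filter.Eventually.of_forall fun i => trivial⟩
            | some s => exact (ultra_relMap A s.2 _).symm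
    · intro f c c'
      obtain ⟨z, rfl⟩ := um_surj c
      obtain ⟨w, rfl⟩ := um_surj c'
      rw [ho2, hE, hE, hE]
      cases f
      · apply phi_ext
        · funext l
          rw [b1]
          change (um fun i => if l = 0 then fst' (z i) 0 else fst' (w i) l : Sys.ultra U A) =
            if l = 0 then (um fun i => fst' (z i) 0) else um fun i => fst' (w i) l
          split_ifs <;> rfl
        · funext l
          rw [b2]
          by_cases hl : l = 0
          · subst hl
            rw [if_pos rfl]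
            have : ∀ i, snd' (op2 TFun.b (z i) (w i)) 0 = snd' (z i) 0 := fun i => by
              rw [b2, if_pos rfl]
            unfold E0
            rw [snd_mk, snd_mk]
            simp only [this]
          · rw [if_neg hl]
            have : ∀ i, snd' (op2 TFun.b (z i) (w i)) l = snd' (w i) l := fun i => by
              rw [b2, if_neg hl]
            unfold E0
            rw [snd_mk, snd_mk]
            simp only [this]
      · rfl
  obtain ⟨h, hh⟩ := hhom
  have hinj : Function.Injective h := by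
    intro c c' e
    obtain ⟨z, rfl⟩ := um_surj c
    obtain ⟨w, rfl⟩ := um_surj c'
    rw [hh, hh, hE, hE, E0_eq] at e
    exact um_eq.2 e
  have hsurj : ∀ y, ∃ x, h x = y := by
    intro y
    choose a ha using fun l => um_surj (fst' y l)
    choose t ht using fun l l' => um_surj ((snd' y l).1 l')
    refine ⟨um fun i => mk' (fun l => a l i)
      (fun l => (fun l' => t l l' i, (snd' y l).2.1, (snd' y l).2.2)), ?_⟩
    rw [hh, hE]
    apply phi_ext
    · funext l
      exact ha l
    · funext l
      refine Prod.ext ?_ (Prod.ext ?_ ?_)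
      · funext l'
        exact ht l l'
      · exact lim_eq U _ _ (Filter.Eventually.of_forall fun i => rfl)
      · exact propext Filter.eventually_const
  choose g hg using hsurj
  obtain ⟨G, hG⟩ := mkHom g (fun f x => hinj (by rw [hg, hom_op1, hg]))
    (fun f x y => hinj (by rw [hg, hom_op2, hg, hg]))
  have hGi : Function.Injective G := by
    intro x y e
    rw [hG, hG] at e
    rw [← hg x, e, hg]
  exact ⟨{ toFun := G, inj' := hGi, map_fun' := fun f x => G.map_fun f x, map_rel' := fun {_} r => Empty.elim r }⟩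

theorem Sep_of_subset {X Y : Set (Sys.{u} L)} (h : X ⊆ FiniteSignatureK.Sep Y) : FiniteSignatureK.Sep X ⊆ FiniteSignatureK.Sep Y :=
  (Sep_mono h).trans (Sep_Sep Y)

/-- Codes of separated systems are separated by the codes. -/
theorem Phi_sep (hc : Coding gf gr) {S : Set (Sys.{u} L)} (hS : triv L ∈ S) {A : Sys.{u} L}
    (hA : A ∈ FiniteSignatureK.Sep S) : Phi gf gr A ∈ FiniteSignatureK.Sep ((fun A : Sys.{u} L => Phi gf gr A) '' S) := by
  refine mem_of_Psi hc hS (subset_Sep _ ⟨A, Set.mem_univ _, rfl⟩) ?_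
  have h1 : Psi hc (Phi gf gr A) ∈ FiniteSignatureK.Sep ({A} : Set (Sys.{u} L)) :=
    Psi_mem hc (subset_Sep _ ⟨A, rfl, rfl⟩)
  exact Sep_of_subset (Set.singleton_subset_iff.2 hA) h1

/-- The systems whose codes lie in a quasivariety form a quasivariety. -/
theorem decode_isQuasivariety (hc : Coding gf gr) (Z : Quasivariety.{u} tau)
    (hZ : Phi gf gr (triv.{u} L) ∈ Z.cls) :
    IsQuasivariety {A : Sys.{u} L | Phi gf gr A ∈ Z.cls} := by
  have key : ∀ (S : Set (Sys.{u} L)) (A : Sys.{u} L), (∀ B ∈ S, Phi gf gr B ∈ Z.cls) →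
      A ∈ FiniteSignatureK.Sep S → Phi gf gr A ∈ Z.cls := by
    intro S A hS hA
    have h1 : Phi gf gr A ∈ FiniteSignatureK.Sep ((fun A : Sys.{u} L => Phi gf gr A) '' (insert (triv L) S)) :=
      Phi_sep hc (Set.mem_insert _ _) (Sep_mono (Set.subset_insert _ _) hA)
    refine Z.isQ.sep_subset (Sep_mono ?_ h1)
    rintro _ ⟨B, rfl | hB, rfl⟩
    · exact hZ
    · exact hS B hB
  refine ⟨?_, ?_, ?_⟩
  · rintro A B ⟨e⟩ hB
    refine key {B} A (fun C hC => by rw [Set.mem_singleton_iff.1 hC]; exact hB) ⟨?_, ?_⟩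
    · intro a b hab
      exact ⟨B, rfl, e.toHom, fun h => hab (e.injective h)⟩
    · intro n r x hr
      exact ⟨B, rfl, e.toHom, fun h => hr ((e.map_rel r x).1 h)⟩
  · intro ι A hA
    have pr : ∀ i, ∃ p : Sys.pi A →[L] A i, ∀ x, p x = x i := fun i =>
      ⟨{ toFun := fun x => x i, map_fun' := fun _ _ => rfl, map_rel' := fun _ _ h => h i },
        fun _ => rfl⟩
    refine key (Set.range A) _ (by rintro _ ⟨i, rfl⟩; exact hA i) ⟨?_, ?_⟩
    · intro a b hab
      obtain ⟨i, hi⟩ := Function.ne_iff.1 hab
      obtain ⟨p, hp⟩ := pr i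
      exact ⟨A i, ⟨i, rfl⟩, p, by rw [hp, hp]; exact hi⟩
    · intro n r x hr
      rw [pi_relMap] at hr
      push Not at hr
      obtain ⟨i, hi⟩ := hr
      obtain ⟨p, hp⟩ := pr i
      refine ⟨A i, ⟨i, rfl⟩, p, ?_⟩
      have e : (⇑p ∘ x) = fun j => x j i := funext fun j => hp _
      rw [e]
      exact hi
  · intro ι U A hA
    exact Z.isQ.sub _ _ (Phi_ultra_emb U A) (Z.isQ.ultra ι U _ hA)

end coding

/-- Arbitrary intersections of quasivarieties. -/
def sInter (K : Quasivariety.{u} L) (S : Set (Lq K)) : Lq K :=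
  ⟨⟨{A | A ∈ K.cls ∧ ∀ Y ∈ S, A ∈ Y.1.cls},
    { sub := fun A B h hB => ⟨K.isQ.sub A B h hB.1, fun Y hY => Y.1.isQ.sub A B h (hB.2 Y hY)⟩
      prod := fun ι A h => ⟨K.isQ.prod ι A fun i => (h i).1,
        fun Y hY => Y.1.isQ.prod ι A fun i => (h i).2 Y hY⟩
      ultra := fun ι U A h => ⟨K.isQ.ultra ι U A fun i => (h i).1,
        fun Y hY => Y.1.isQ.ultra ι U A fun i => (h i).2 Y hY⟩ }⟩, fun _ h => h.1⟩

theorem isGLB_sInter (K : Quasivariety.{u} L) (S : Set (Lq K)) : IsGLB S (sInter K S) :=
  ⟨fun Y hY _ hA => hA.2 Y hY, fun Z hZ _ hA => ⟨Z.2 hA, fun _ hY => hZ hY hA⟩⟩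

theorem exists_isLUB (K : Quasivariety.{u} L) (S : Set (Lq K)) : ∃ X, IsLUB S X :=
  ⟨sInter K (upperBounds S), isGLB_upperBounds.1 (isGLB_sInter K _)⟩

theorem exists_complete (M : Quasivariety.{u} L) (hL : FiniteSignature L) :
    ∃ f : Lq M → Lq allTau.{u}, (∀ X Y, f X ≤ f Y ↔ X ≤ Y) ∧
      ∀ S : Set (Lq M), S.Nonempty →
        (∀ X, IsLUB S X → IsLUB (f '' S) (f X)) ∧ ∀ X, IsGLB S X → IsGLB (f '' S) (f X) := by
  obtain ⟨k, hk, gf, gr, hc⟩ := exists_coding hL
  let P : Set (Sys.{u} L) → Set (Sys.{u} tau) := fun X => FiniteSignatureK.Sep ((fun A : Sys.{u} L => Phi gf gr A) '' X)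
  have hPQ : ∀ X : Quasivariety.{u} L, IsQuasivariety (P X.cls) := by
    intro X
    apply Sep_isQuasivariety
    intro ι U B hB
    choose A hA hAB using hB
    have e : B = fun i => Phi gf gr (A i) := funext fun i => (hAB i).symm
    rw [e]
    exact ultra_Phi U A (X.isQ.ultra ι U A hA)
  have hmem : ∀ (X : Quasivariety.{u} L) (B : Sys.{u} tau),
      B ∈ P X.cls ↔ B ∈ P Set.univ ∧ Psi hc B ∈ X.cls := by
    intro X B
    constructor
    · intro h
      exact ⟨Sep_mono (Set.image_mono (Set.subset_univ _)) h, X.isQ.sep_subset (Psi_mem hc h)⟩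
    · rintro ⟨h1, h2⟩
      exact mem_of_Psi hc X.isQ.triv_mem h1 (subset_Sep _ h2)
  let f : Lq M → Lq allTau.{u} := fun X => ⟨⟨P X.1.cls, hPQ X.1⟩, Set.subset_univ _⟩
  have hle : ∀ {X Y : Lq M}, X ≤ Y → f X ≤ f Y := fun h => Sep_mono (Set.image_mono h)
  have hcode : ∀ {X : Lq M} {A : Sys.{u} L}, A ∈ X.1.cls → Phi gf gr A ∈ (f X).1.cls :=
    fun hA => subset_Sep _ ⟨_, hA, rfl⟩
  refine ⟨f, fun X Y => ⟨fun h A hA => ?_, hle⟩, fun S hS => ⟨fun X hX => ⟨?_, ?_⟩,
    fun X hX => ⟨?_, ?_⟩⟩⟩
  · have h3 := ((hmem Y.1 _).1 (h (hcode hA))).2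
    exact Y.1.isQ.sub _ _ (emb_Psi hc A) h3
  · rintro _ ⟨Y, hY, rfl⟩
    exact hle (hX.1 hY)
  · intro Z hZ
    obtain ⟨Y0, hY0⟩ := hS
    have hW := decode_isQuasivariety hc Z.1
      (hZ ⟨Y0, hY0, rfl⟩ (hcode (X := Y0) Y0.1.isQ.triv_mem))
    let W : Lq M := ⟨Quasivariety.meet M ⟨_, hW⟩, fun _ h => h.1⟩
    have hXW : X ≤ W := by
      apply hX.2
      intro Y hY A hA
      exact ⟨Y.2 hA, hZ ⟨Y, hY, rfl⟩ (hcode hA)⟩
    intro B hB
    refine Z.1.isQ.sep_subset (Sep_mono ?_ hB)
    rintro _ ⟨A, hA, rfl⟩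
    exact (hXW hA).2
  · rintro _ ⟨Y, hY, rfl⟩
    exact hle (hX.1 hY)
  · intro Z hZ B hB
    obtain ⟨Y0, hY0⟩ := hS
    have h0 := (hmem Y0.1 B).1 (hZ ⟨Y0, hY0, rfl⟩ hB)
    refine (hmem X.1 B).2 ⟨h0.1, ?_⟩
    have hI : sInter M S ≤ X := hX.2 (isGLB_sInter M S).1
    exact hI ⟨Y0.2 h0.2, fun Y hY => ((hmem Y.1 B).1 (hZ ⟨Y, hY, rfl⟩ hB)).2⟩

/-! ### Unrestricted signatures -/

/-- Flat atomic diagrams of finite tuples. -/
abbrev Dg (L : FirstOrder.Language.{0, 0}) : Type :=
  Σ n : ℕ, Set (Fin n × Fin n) × Set (Σ m, L.Functions m × (Fin m → Fin n) × Fin n) ×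
    Set (Σ m, L.Relations m × (Fin m → Fin n))

/-- The flat atomic diagram of a tuple. -/
def dg (A : Sys.{u} L) {n : ℕ} (b : Fin n → A) : Dg L :=
  ⟨n, {p | b p.1 = b p.2}, {q | funMap q.2.1 (b ∘ q.2.2.1) = b q.2.2.2},
    {q | RelMap q.2.1 (b ∘ q.2.2)}⟩

/-- The diagrams of the finite tuples of the members of a class. -/
def dgs (C : Set (Sys.{u} L)) : Set (Dg L) :=
  {d | ∃ A ∈ C, ∃ (n : ℕ) (b : Fin n → A), dg A b = d}

theorem dg_eq {A B : Sys.{u} L} {n m : ℕ} {b : Fin n → A} {c : Fin m → B} (h : dg B c = dg A b) :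
    ∃ d : Fin n → B, (∀ i j, d i = d j ↔ b i = b j) ∧
      (∀ (l : ℕ) (f : L.Functions l) (x : Fin l → Fin n) (j : Fin n),
        funMap f (d ∘ x) = d j ↔ funMap f (b ∘ x) = b j) ∧
      ∀ (l : ℕ) (r : L.Relations l) (x : Fin l → Fin n), RelMap r (d ∘ x) ↔ RelMap r (b ∘ x) := by
  have hm : m = n := congrArg Sigma.fst h
  subst hm
  have h' := eq_of_heq (Sigma.mk.inj_iff.1 h).2
  have h1 := congrArg Prod.fst h'
  have h2 := congrArg (fun t => t.2.1) h'
  have h3 := congrArg (fun t => t.2.2) h'
  refine ⟨c, fun i j => ?_, fun l f x j => ?_, fun l r x => ?_⟩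
  · exact Set.ext_iff.1 h1 (i, j)
  · exact Set.ext_iff.1 h2 ⟨l, f, x, j⟩
  · exact Set.ext_iff.1 h3 ⟨l, r, x⟩

theorem mem_of_dgs {C : Set (Sys.{u} L)} (hC : IsQuasivariety C) {A : Sys.{u} L}
    (h : ∀ (n : ℕ) (b : Fin n → A), dg A b ∈ dgs C) : A ∈ C := by
  classical
  have key : ∀ s : Finset A, ∃ B ∈ C, ∃ g : A → B,
      (∀ a ∈ s, ∀ a' ∈ s, g a = g a' → a = a') ∧
      (∀ (l : ℕ) (f : L.Functions l) (x : Fin l → A), (∀ i, x i ∈ s) → funMap f x ∈ s →
        funMap f (g ∘ x) = g (funMap f x)) ∧
      ∀ (l : ℕ) (r : L.Relations l) (x : Fin l → A), (∀ i, x i ∈ s) →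
        (RelMap r (g ∘ x) ↔ RelMap r x) := by
    intro s
    obtain ⟨B, hB, m, c, hc⟩ := h s.card fun i => (s.equivFin.symm i : A)
    obtain ⟨d, h1, h2, h3⟩ := dg_eq hc
    have hd : ∀ (a : A) (ha : a ∈ s), ((s.equivFin.symm (s.equivFin ⟨a, ha⟩) : s) : A) = a := by
      intro a ha
      rw [Equiv.symm_apply_apply]
    refine ⟨B, hB, fun a => if ha : a ∈ s then d (s.equivFin ⟨a, ha⟩) else Classical.arbitrary B, ?_, ?_, ?_⟩
    · intro a ha a' ha' e
      simp only [dif_pos ha, dif_pos ha'] at e
      have := (h1 _ _).1 e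
      rwa [hd, hd] at this
    · intro l f x hx hf
      have e1 : (fun a => if ha : a ∈ s then d (s.equivFin ⟨a, ha⟩) else Classical.arbitrary B) ∘ x =
          d ∘ fun i => s.equivFin ⟨x i, hx i⟩ := by
        funext i
        simp only [Function.comp_apply, dif_pos (hx i)]
      have e2 : ((fun i => ((s.equivFin.symm i : s) : A)) ∘ fun i => s.equivFin ⟨x i, hx i⟩) = x := by
        funext i
        exact hd _ _
      rw [e1]
      simp only [dif_pos hf]
      rw [h2, e2, hd]
    · intro l r x hx
      have e1 : (fun a => if ha : a ∈ s then d (s.equivFin ⟨a, ha⟩) else Classical.arbitrary B) ∘ x =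
          d ∘ fun i => s.equivFin ⟨x i, hx i⟩ := by
        funext i
        simp only [Function.comp_apply, dif_pos (hx i)]
      have e2 : ((fun i => ((s.equivFin.symm i : s) : A)) ∘ fun i => s.equivFin ⟨x i, hx i⟩) = x := by
        funext i
        exact hd _ _
      rw [e1, h3, e2]
  choose B hB g h1 h2 h3 using key
  let U : Ultrafilter (Finset A) := Ultrafilter.of Filter.atTop
  have hU : ∀ a : A, ∀ᶠ s in (U : Filter (Finset A)), a ∈ s := by
    intro a
    have h0 := (Filter.eventually_ge_atTop ({a} : Finset A)).filter_mono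
      (Ultrafilter.of_le (Filter.atTop : Filter (Finset A)))
    exact h0.mono fun s hs => Finset.singleton_subset_iff.1 hs
  refine hC.sub A (Sys.ultra U B) ⟨?_⟩ (hC.ultra _ U B hB)
  refine { toFun := fun a => um fun s => g s a, inj' := ?_, map_fun' := ?_, map_rel' := ?_ }
  · intro a a' e
    have e' := um_eq.1 e
    obtain ⟨s, ⟨hs, ha⟩, ha'⟩ := ((e'.and (hU a)).and (hU a')).exists
    exact h1 s a ha a' ha' hs
  · intro l f x
    change (um fun s => g s (funMap f x)) = funMap f fun j => (um fun s => g s (x j) : Sys.ultra U B)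
    rw [ultra_funMap, um_eq]
    filter_upwards [Filter.eventually_all.2 fun i => hU (x i), hU (funMap f x)] with s hx hf
    exact (h2 s l f x hx hf).symm
  · intro l r x
    change (RelMap r fun j => (um fun s => g s (x j) : Sys.ultra U B)) ↔ _
    rw [ultra_relMap]
    have e : (∀ᶠ s in (U : Filter (Finset A)), RelMap r fun j => g s (x j)) ↔
        ∀ᶠ _s in (U : Filter (Finset A)), RelMap r x := by
      apply Filter.eventually_congr
      filter_upwards [Filter.eventually_all.2 fun i => hU (x i)] with s hx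
      exact h3 s l r x hx
    rw [e, Filter.eventually_const]

theorem dgs_injective (K : Quasivariety.{u} L) :
    Function.Injective fun X : Lq K => dgs X.1.cls := by
  have key : ∀ X Y : Lq K, dgs X.1.cls = dgs Y.1.cls → X ≤ Y := by
    intro X Y h A hA
    refine mem_of_dgs Y.1.isQ fun n b => ?_
    rw [← h]
    exact ⟨A, hA, n, b, rfl⟩
  intro X Y h
  exact le_antisymm (key X Y h) (key Y X h.symm)

/-- Unary relation symbols indexed by `I`. -/
inductive URel (I : Type) : ℕ → Type
  | r : I → URel I 1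

/-- The signature with unary relation symbols indexed by `I`. -/
abbrev uni (I : Type) : FirstOrder.Language.{0, 0} := ⟨fun _ => Empty, URel I⟩

/-- The quasivariety of all systems of signature `L`. -/
def allSys (L : FirstOrder.Language.{0, 0}) : Quasivariety.{u} L where
  cls := Set.univ
  isQ := ⟨fun _ _ _ _ => trivial, fun _ _ _ => trivial, fun _ _ _ _ => trivial⟩

/-- The systems in which the relation `x` holds everywhere. -/
def full {I : Type} (x : I) : Lq (allSys.{u} (uni I)) :=
  ⟨⟨{A | ∀ v : Fin 1 → A, RelMap (L := uni I) (URel.r x) v},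
    { sub := by
        rintro A B ⟨e⟩ hB v
        exact (e.map_rel (URel.r x : (uni I).Relations 1) v).1 (hB _)
      prod := fun ι A h v i => h i _
      ultra := by
        intro ι U A h v
        obtain ⟨y, rfl⟩ := um_surj_fun v
        exact (ultra_relMap A (URel.r x : (uni I).Relations 1) y).2
          (Filter.Eventually.of_forall fun i => h i _) }⟩, Set.subset_univ _⟩

/-- The one-element system in which only the relation `x` holds. -/
def single {I : Type} (x : I) : Sys.{u} (uni I) where
  carrier := PUnit.{u + 1}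
  str :=
    { funMap := fun f => Empty.elim f
      RelMap := fun r _ => match r with
        | URel.r y => y = x }
  ne := ⟨PUnit.unit⟩

theorem full_injective (I : Type) : Function.Injective (full.{u} (I := I)) := by
  intro x y h
  have h1 : single.{u} x ∈ (full.{u} x).1.cls := fun v => (rfl : x = x)
  rw [h] at h1
  exact (h1 fun _ => PUnit.unit : y = x).symm

theorem no_universal (K : Quasivariety.{u} L) :
    ∃ (L' : FirstOrder.Language.{0, 0}) (M : Quasivariety.{u} L'),
      ¬ ∃ f : Lq M → Lq K, Function.Injective f := by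
  refine ⟨uni (Set (Set (Dg L))), allSys _, ?_⟩
  rintro ⟨f, hf⟩
  exact Function.cantor_injective (fun x : Set (Set (Dg L)) => dgs (f (full.{u} x)).1.cls)
    ((dgs_injective K).comp (hf.comp (full_injective _)))

/-- `f` embeds the ordered set `A` in `B` as a complete sublattice: `f` is an order embedding and
preserves all existing joins and meets of nonempty (possibly infinite) sets. -/
def CompleteEmbedding {A B : Type*} [PartialOrder A] [PartialOrder B] (f : A → B) : Prop :=
  (∀ x y, f x ≤ f y ↔ x ≤ y) ∧ ∀ S : Set A, S.Nonempty →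
    (∀ x, IsLUB S x → IsLUB (f '' S) (f x)) ∧ ∀ x, IsGLB S x → IsGLB (f '' S) (f x)

/-- (1) Every `Lq K` is a complete lattice. (2) For every quasivariety `M` of finite signature
`Lq M` embeds as a complete sublattice in `Lq K`, where `K = allTau` is the class of all algebras
with four unary and two binary operations. (3) The signature of `M` has to be restricted: for every
quasivariety `K`, of any signature, there is a quasivariety `M` (of some signature) such that `Lq M`
has no injective map to `Lq K`, in particular is not isomorphic to a sublattice of `Lq K`. -/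
theorem result :
    (∀ (L : FirstOrder.Language.{0, 0}) (K : Quasivariety.{u} L) (S : Set (Lq K)),
      (∃ X, IsLUB S X) ∧ ∃ X, IsGLB S X) ∧
    (∀ (L : FirstOrder.Language.{0, 0}) (M : Quasivariety.{u} L), FiniteSignature L →
      ∃ f : Lq M → Lq allTau.{u}, CompleteEmbedding f) ∧
    ∀ (L : FirstOrder.Language.{0, 0}) (K : Quasivariety.{u} L),
      ∃ (L' : FirstOrder.Language.{0, 0}) (M : Quasivariety.{u} L'),
        ¬ ∃ f : Lq M → Lq K, Function.Injective f :=
  ⟨fun _ K S => ⟨exists_isLUB K S, _, isGLB_sInter K S⟩, fun _ M hL => exists_complete M hL,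
    fun _ K => no_universal K⟩

end Pool.Agent.Results.MP_7a870e_al.CompleteSublattices
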